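import Mathlib

set_option autoImplicit false
set_option synthInstance.maxSize 4096
set_option synthInstance.maxHeartbeats 400000

namespace Pool.Agent.Results.MP_755a2c_co.Heptagram

/-- The vertices are `0, …, n-1` in their order around the circle; a segment is a pair
`(a, b)` with `a < b`. Two segments cross iff their endpoints are distinct and alternate. -/
def Cross {n : ℕ} (s t : Fin n × Fin n) : Prop :=
  (s.1 < t.1 ∧ t.1 < s.2 ∧ s.2 < t.2) ∨ (t.1 < s.1 ∧ s.1 < t.2 ∧ t.2 < s.2)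

/-- The edges of `G` crossing the segment `s` contain `r` pairwise independent edges. -/
def PiercedBy {n : ℕ} (G : SimpleGraph (Fin n)) (s : Fin n × Fin n) (r : ℕ) : Prop :=
  ∃ M : Finset (Fin n × Fin n), M.card = r ∧
    (∀ e ∈ M, e.1 < e.2 ∧ G.Adj e.1 e.2 ∧ Cross e s) ∧
    ∀ e ∈ M, ∀ f ∈ M, e ≠ f → e.1 ≠ f.1 ∧ e.1 ≠ f.2 ∧ e.2 ≠ f.1 ∧ e.2 ≠ f.2

/-- The circular drawing of `G` is `k`-matching-planar. -/
def MatchingPlanar {n : ℕ} (k : ℕ) (G : SimpleGraph (Fin n)) : Prop :=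
  ∀ e : Fin n × Fin n, e.1 < e.2 → G.Adj e.1 e.2 → ¬ PiercedBy G e (k + 1)

/-- A side of the outer polygon. -/
def Side {n : ℕ} (s : Fin n × Fin n) : Prop :=
  s.1 < s.2 ∧ (s.2.1 = s.1.1 + 1 ∨ (s.1.1 = 0 ∧ s.2.1 = n - 1))

/-- A set of pairwise non-crossing diagonals. -/
def NonCrossing {n : ℕ} (D : Finset (Fin n × Fin n)) : Prop :=
  (∀ d ∈ D, d.1 < d.2 ∧ ¬ Side d) ∧ ∀ d ∈ D, ∀ d' ∈ D, ¬ Cross d d'

/-- A triangulation of the outer cycle: the sides together with an inclusion-maximal set of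
pairwise non-crossing diagonals. -/
def Triangulation {n : ℕ} (T : Finset (Fin n × Fin n)) : Prop :=
  ∃ D : Finset (Fin n × Fin n), Maximal NonCrossing D ∧ ∀ t, t ∈ T ↔ Side t ∨ t ∈ D

instance {n : ℕ} (s t : Fin n × Fin n) : Decidable (Cross s t) := by
  unfold Cross; infer_instance

instance {n : ℕ} (s : Fin n × Fin n) : Decidable (Side s) := by
  unfold Side; infer_instance

/-- The heptagram: `i` and `j` are adjacent iff they are two steps apart on the 7-cycle. -/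
def H : SimpleGraph (Fin 7) where
  Adj i j := j = i + 2 ∨ i = j + 2
  symm := ⟨fun _ _ h => h.symm⟩
  loopless := ⟨by decide⟩

instance : DecidableRel H.Adj := fun i j => by unfold H; infer_instance

def ears : Finset (Fin 7 × Fin 7) := {(0, 2), (1, 3), (2, 4), (3, 5), (4, 6), (0, 5), (1, 6)}

lemma h1 : ∀ s e f : Fin 7 × Fin 7, s.1 < s.2 → H.Adj s.1 s.2 →
    e.1 < e.2 ∧ H.Adj e.1 e.2 ∧ Cross e s → f.1 < f.2 ∧ H.Adj f.1 f.2 ∧ Cross f s →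
    ¬ (e.1 ≠ f.1 ∧ e.1 ≠ f.2 ∧ e.2 ≠ f.1 ∧ e.2 ≠ f.2) := by
  have a : ∀ s : Fin 7 × Fin 7, s.1 < s.2 → H.Adj s.1 s.2 → s ∈ ears := by decide +kernel
  have b : ∀ s ∈ ears, ∀ e ∈ ears, ∀ f ∈ ears, Cross e s → Cross f s →
      ¬ (e.1 ≠ f.1 ∧ e.1 ≠ f.2 ∧ e.2 ≠ f.1 ∧ e.2 ≠ f.2) := by decide +kernel
  intro s e f h1 h2 he hf
  exact b s (a s h1 h2) e (a e he.1 he.2.1) f (a f hf.1 hf.2.1) he.2.2 hf.2.2

lemma h2 : ∀ d : Fin 7 × Fin 7, d.1 < d.2 → ¬ Side d → d ∉ ears →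
    ∃ e ∈ ears, ∃ f ∈ ears, Cross e d ∧ Cross f d ∧
      e.1 ≠ f.1 ∧ e.1 ≠ f.2 ∧ e.2 ≠ f.1 ∧ e.2 ≠ f.2 := by decide +kernel

lemma h3 : ∀ e ∈ ears, e.1 < e.2 ∧ H.Adj e.1 e.2 := by decide +kernel

lemma h5 : ∀ e ∈ ears, ∀ f ∈ ears, (f.1 = e.1 + 3 ∧ f.2 = e.2 + 3) ∨ (f.2 = e.1 + 3 ∧ f.1 = e.2 + 3) ∨
    (f.1 = e.2 + 3 ∧ f.2 = e.1 + 3) →
    ∃ d : Fin 7 × Fin 7, d.1 < d.2 ∧ ¬ Side d ∧ d ∉ ears ∧ ¬ Cross d d ∧
      ∀ a ∈ ears, a ≠ e → a ≠ f → ¬ Cross d a ∧ ¬ Cross a d := by decide +kernel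

lemma h6 : ∀ b0 b1 b2 b3 b4 b5 b6 : Bool, ¬ (b0 ∧ b1) → ¬ (b1 ∧ b2) → ¬ (b2 ∧ b3) → ¬ (b3 ∧ b4) →
    ¬ (b4 ∧ b5) → ¬ (b5 ∧ b6) → ¬ (b6 ∧ b0) → (¬ b0 ∧ ¬ b3) ∨ (¬ b1 ∧ ¬ b4) ∨ (¬ b2 ∧ ¬ b5) ∨
    (¬ b3 ∧ ¬ b6) ∨ (¬ b4 ∧ ¬ b0) ∨ (¬ b5 ∧ ¬ b1) ∨ (¬ b6 ∧ ¬ b2) := by decide +kernel

lemma h4 (S : Finset (Fin 7 × Fin 7)) (hS : S ⊆ ears) (h : ∀ a ∈ S, ∀ b ∈ S, ¬ Cross a b) :
    ∃ d : Fin 7 × Fin 7, d.1 < d.2 ∧ ¬ Side d ∧ d ∉ ears ∧ ¬ Cross d d ∧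
      ∀ a ∈ S, ¬ Cross d a ∧ ¬ Cross a d := by
  have k : ∀ e f : Fin 7 × Fin 7, Cross e f → ¬ (decide (e ∈ S) = true ∧ decide (f ∈ S) = true) :=
    fun e f c hh => h e (of_decide_eq_true hh.1) f (of_decide_eq_true hh.2) c
  have g : ∀ e ∈ ears, ∀ f ∈ ears, (f.1 = e.1 + 3 ∧ f.2 = e.2 + 3) ∨
      (f.2 = e.1 + 3 ∧ f.1 = e.2 + 3) ∨ (f.1 = e.2 + 3 ∧ f.2 = e.1 + 3) →
      (¬ decide (e ∈ S) = true ∧ ¬ decide (f ∈ S) = true) →
      ∃ d : Fin 7 × Fin 7, d.1 < d.2 ∧ ¬ Side d ∧ d ∉ ears ∧ ¬ Cross d d ∧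
        ∀ a ∈ S, ¬ Cross d a ∧ ¬ Cross a d := by
    intro e he f hf hef hh
    obtain ⟨d, d1, d2, d3, d4, d5⟩ := h5 e he f hf hef
    refine ⟨d, d1, d2, d3, d4, fun a ha => d5 a (hS ha) ?_ ?_⟩
    · rintro rfl
      exact hh.1 (decide_eq_true ha)
    · rintro rfl
      exact hh.2 (decide_eq_true ha)
  rcases h6 _ _ _ _ _ _ _ (k (0, 2) (1, 3) (by decide)) (k (1, 3) (2, 4) (by decide))
    (k (2, 4) (3, 5) (by decide)) (k (3, 5) (4, 6) (by decide)) (k (4, 6) (0, 5) (by decide))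
    (k (0, 5) (1, 6) (by decide)) (k (1, 6) (0, 2) (by decide)) with
    a | a | a | a | a | a | a
  all_goals exact g _ (by decide) _ (by decide) (by decide) a

lemma planar : MatchingPlanar 1 H := by
  rintro s hs hs' ⟨M, hM, hM1, hM2⟩
  obtain ⟨e, f, hef, rfl⟩ := Finset.card_eq_two.1 hM
  exact h1 s e f hs hs' (hM1 e (by simp)) (hM1 f (by simp)) (hM2 e (by simp) f (by simp) hef)

lemma bad (T : Finset (Fin 7 × Fin 7)) (hT : Triangulation T) : ∃ t ∈ T, PiercedBy H t 2 := by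
  obtain ⟨D, hD, hTD⟩ := hT
  by_cases hsub : D ⊆ ears
  · exfalso
    obtain ⟨d, d1, d2, d3, d4, d5⟩ := h4 D hsub hD.1.2
    have : NonCrossing (insert d D) := by
      constructor
      · intro a ha
        rcases Finset.mem_insert.1 ha with rfl | ha
        · exact ⟨d1, d2⟩
        · exact hD.1.1 a ha
      · intro a ha b hb
        rcases Finset.mem_insert.1 ha with ha' | ha'
        · rcases Finset.mem_insert.1 hb with hb' | hb'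
          · rw [ha', hb']; exact d4
          · rw [ha']; exact (d5 b hb').1
        · rcases Finset.mem_insert.1 hb with hb' | hb'
          · rw [hb']; exact (d5 a ha').2
          · exact hD.1.2 a ha' b hb'
    exact d3 (hsub (hD.2 this (Finset.subset_insert d D) (Finset.mem_insert_self d D)))
  · obtain ⟨d, hd, hd'⟩ := Finset.not_subset.1 hsub
    obtain ⟨e, he, f, hf, c1, c2, c3⟩ := h2 d (hD.1.1 d hd).1 (hD.1.1 d hd).2 hd'
    have hef : e ≠ f := fun h => c3.1 (by rw [h])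
    refine ⟨d, (hTD d).2 (Or.inr hd), {e, f}, Finset.card_pair hef, ?_, ?_⟩
    · intro a ha
      rcases Finset.mem_insert.1 ha with rfl | ha
      · exact ⟨(h3 _ he).1, (h3 _ he).2, c1⟩
      · rw [Finset.mem_singleton.1 ha]
        exact ⟨(h3 _ hf).1, (h3 _ hf).2, c2⟩
    · intro a ha b hb hab
      simp only [Finset.mem_insert, Finset.mem_singleton] at ha hb
      rcases ha with rfl | rfl <;> rcases hb with rfl | rfl
      · exact absurd rfl hab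
      · exact c3
      · exact ⟨c3.1.symm, c3.2.2.1.symm, c3.2.1.symm, c3.2.2.2.symm⟩
      · exact absurd rfl hab

theorem result :
    (MatchingPlanar 1 H ∧
      ∀ T : Finset (Fin 7 × Fin 7), Triangulation T → ∃ t ∈ T, PiercedBy H t 2) ∧
    ¬ ∀ k : ℕ, 1 ≤ k → ∀ n : ℕ, 3 ≤ n → ∀ G : SimpleGraph (Fin n), MatchingPlanar k G →
      ∃ T : Finset (Fin n × Fin n), Triangulation T ∧ ∀ t ∈ T, ¬ PiercedBy G t (k + 1) := by
  refine ⟨⟨planar, bad⟩, fun h => ?_⟩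
  obtain ⟨T, hT, h'⟩ := h 1 le_rfl 7 (by norm_num) H planar
  obtain ⟨t, ht, hp⟩ := bad T hT
  exact h' t ht hp

end Pool.Agent.Results.MP_755a2c_co.Heptagram
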